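import Pool.Agent.H14.T1.RECI
import Pool.Agent.H50.T1.CMPK
import Pool.Agent.H72.PRK.S2
import Pool.Agent.H72.PRK.Chg

/-!
# PRK, row RECQ: the number of the primes of type `(1, 1)` is even
-/

set_option autoImplicit false

namespace Pool.PRK

open Polynomial Matrix Pool.HYP Pool.TOW Pool.AVS Pool.T1 IsDedekindDomain

/-- **RECQ.** -/
theorem recq (hTKL : TKLKStmt) : RECQStmt := by
  intro F _ _ h2 K _ _ _ _ O hO π hπ
  obtain ⟨Ram, hRam⟩ := rcpkF F h2 K O hO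
  refine ⟨Ram, ?_⟩
  intro g D h hg hD hRT f hf ϖ hϖ α x hα hx
  have hR := ((gri F h2 K O hO).2 π hπ).1
  have hfm : f.Monic := hf.1.1
  have hfn : f.natDegree = 2 * g + 1 := hf.1.2.1
  choose ϖ₀ L hL O' ι h1 h3 hC₀ using cmpk (RR F K) K O π hR
  have hC : ∀ P ∈ D.T, CompP P (ϖ P) (L P) (O' P) (ι P) := fun P hP =>
    compP_chg (hC₀ P) (hϖ P hP).1 (hϖ P hP).2
  have hk : ∀ P : HeightOneSpectrum (RR F K), ∃ (c' : O' P) (γ' : (O' P)[X]), P ∈ D.T →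
      OkL (O' P) g γ' ∧ (fk K f).map (ι P) = oL (O' P) ((X - C c') * γ') ∧
      TyL (O' P) (ι P (algebraMap (RR F K) K (ϖ P))) c' γ' (x P) (α.map (ι P)) := by
    intro P
    by_cases hP : P ∈ D.T
    · obtain ⟨c', γ', h5, h6, h7⟩ := hTKL (RR F K) K P (ϖ P) (L P) (O' P) (ι P) (hC P hP) g
        (D.c P) (D.γ P) f hg (hD.2.1 P hP) hfm hfn (hf.2.2.1 P hP)
      exact ⟨c', γ', fun _ => ⟨h5, h6, (h7 α hα.1 hα.2.1 (x P)).1 (hx P hP)⟩⟩
    · exact ⟨0, 0, fun h5 => absurd h5 hP⟩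
  choose c' γ' hcγ using hk
  exact RECAaux.one_class usg (lsq lsa) qsl qskF vqb hπ hR hRam hg hD hRT hf hC
    (fun P hP => ⟨(hcγ P hP).1, (hcγ P hP).2.1⟩) hα.1 hα.2.1 hα.2.2
    (fun P hP => (hcγ P hP).2.2)

end Pool.PRK
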